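import Pool.Agent.Y995.LG.Stm

/-!
# Diagonal subsequences
-/

set_option autoImplicit false

namespace Pool.Agent.Y686.LGP

open Filter Topology
open Pool.Agent.Y995.LG (S_DIAG)

theorem diag : S_DIAG := by
  intro Z _ a h
  choose ψ hψ y hy using h
  let F : ℕ → {φ : ℕ → ℕ // StrictMono φ} := fun j => Nat.rec
    ⟨ψ 0 id strictMono_id, hψ 0 id strictMono_id⟩
    (fun j P => ⟨P.1 ∘ ψ (j + 1) P.1 P.2, P.2.comp (hψ (j + 1) P.1 P.2)⟩) j
  have hF : ∀ j, (F (j + 1)).1 = (F j).1 ∘ ψ (j + 1) (F j).1 (F j).2 := fun j => rfl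
  have hc : ∀ j, ∃ y, Tendsto (fun i => a j ((F j).1 i)) atTop (𝓝 y) := by
    intro j
    cases j with
    | zero => exact ⟨_, hy 0 id strictMono_id⟩
    | succ j => exact ⟨_, hy (j + 1) (F j).1 (F j).2⟩
  have hsub : ∀ j d, ∃ θ : ℕ → ℕ, StrictMono θ ∧ ∀ i, (F (j + d)).1 i = (F j).1 (θ i) := by
    intro j d
    induction d with
    | zero => exact ⟨id, strictMono_id, fun i => rfl⟩
    | succ d ih =>
      obtain ⟨θ, h1, h2⟩ := ih
      refine ⟨θ ∘ ψ (j + d + 1) (F (j + d)).1 (F (j + d)).2, h1.comp (hψ _ _ _), fun i => ?_⟩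
      have h3 : (F (j + (d + 1))).1 i = (F (j + d)).1 (ψ (j + d + 1) (F (j + d)).1 (F (j + d)).2 i) :=
        congrFun (hF (j + d)) i
      rw [h3, h2]
      rfl
  refine ⟨fun i => (F i).1 i, ?_, ?_⟩
  · refine strictMono_nat_of_lt_succ fun i => ?_
    show (F i).1 i < (F (i + 1)).1 (i + 1)
    rw [hF]
    have h1 : i + 1 ≤ ψ (i + 1) (F i).1 (F i).2 (i + 1) := (hψ (i + 1) (F i).1 (F i).2).le_apply
    exact (F i).2 (by omega)
  · intro j
    obtain ⟨z, hz⟩ := hc j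
    refine ⟨z, ?_⟩
    have h1 : ∀ i, ∃ m, i ≤ m ∧ (j ≤ i → (F i).1 i = (F j).1 m) := by
      intro i
      by_cases hij : j ≤ i
      · obtain ⟨d, rfl⟩ := Nat.exists_eq_add_of_le hij
        obtain ⟨θ, h1, h2⟩ := hsub j d
        exact ⟨θ (j + d), h1.le_apply, fun _ => h2 _⟩
      · exact ⟨i, le_rfl, fun h => absurd h hij⟩
    choose m hm1 hm2 using h1
    have h2 : Tendsto m atTop atTop := tendsto_atTop_mono hm1 tendsto_id
    refine (hz.comp h2).congr' ?_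
    filter_upwards [eventually_ge_atTop j] with i hi
    show a j ((F j).1 (m i)) = a j ((F i).1 i)
    rw [hm2 i hi]

end Pool.Agent.Y686.LGP
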