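import Pool.Agent.Y995.HG.Up
import Pool.Agent.Y995.LG.Stm

/-!
# Sets of small dimension have gauge measure zero
-/

set_option autoImplicit false

namespace Pool.Agent.Y686.LGP

open MeasureTheory Filter Topology
open scoped ENNReal NNReal
open Pool.Agent.Y995.HG (ga gm)
open Pool.Agent.Y995.LG (sq)

lemma ga_small {s : ℝ} (hs : s < 7/4) : ∃ r0 : ℝ, 0 < r0 ∧ ∀ x : ℝ, 0 ≤ x → x < r0 →
    ga x ≤ x ^ s := by
  set δ : ℝ := 7/4 - s with hδ
  have hδ0 : 0 < δ := by linarith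
  have h1 : ∀ᶠ y : ℝ in atTop, Real.log y ≤ y ^ (8 * δ) := by
    have h2 := (isLittleO_log_rpow_atTop (show (0 : ℝ) < 8 * δ by linarith)).bound one_pos
    filter_upwards [h2, eventually_ge_atTop 1] with y hy hy1
    rw [Real.norm_of_nonneg (Real.log_nonneg hy1), Real.norm_of_nonneg (by positivity),
      one_mul] at hy
    exact hy
  obtain ⟨Y, hY⟩ := eventually_atTop.1 h1
  set Z : ℝ := max Y (Real.exp (Real.exp 1)) with hZ
  have hZ0 : 0 < Z := lt_of_lt_of_le (Real.exp_pos _) (le_max_right _ _)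
  refine ⟨1 / Z, by positivity, fun x hx0 hx => ?_⟩
  unfold ga
  rcases hx0.eq_or_lt with h0 | h0
  · rw [← h0, Real.zero_rpow (by norm_num), zero_mul]
    exact Real.rpow_nonneg le_rfl _
  have hy : Z ≤ 1 / x := by
    rw [le_div_iff₀ h0]
    rw [lt_div_iff₀ hZ0] at hx
    linarith
  have hy1 : Y ≤ 1 / x := (le_max_left _ _).trans hy
  have hy2 : Real.exp (Real.exp 1) ≤ 1 / x := (le_max_right _ _).trans hy
  have h3 : Real.exp 1 ≤ Real.log (1 / x) := by
    have := Real.log_le_log (Real.exp_pos _) hy2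
    rwa [Real.log_exp] at this
  have h4 : 1 ≤ Real.log (Real.log (1 / x)) := by
    have := Real.log_le_log (Real.exp_pos _) h3
    rwa [Real.log_exp] at this
  have h5 : Real.log (Real.log (1 / x)) ≤ Real.log (1 / x) :=
    Real.log_le_self ((Real.exp_pos 1).le.trans h3)
  have h6 : Real.log (1 / x) ≤ (1 / x) ^ (8 * δ) := hY _ hy1
  have h7 : Real.log (Real.log (1 / x)) ^ (1/8 : ℝ) ≤ (1 / x) ^ δ := by
    calc Real.log (Real.log (1 / x)) ^ (1/8 : ℝ) ≤ ((1 / x) ^ (8 * δ)) ^ (1/8 : ℝ) :=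
          Real.rpow_le_rpow (by linarith) (h5.trans h6) (by norm_num)
      _ = (1 / x) ^ δ := by
          rw [← Real.rpow_mul (by positivity)]
          congr 1
          ring
  calc x ^ (7/4 : ℝ) * Real.log (Real.log (1 / x)) ^ (1/8 : ℝ)
      ≤ x ^ (7/4 : ℝ) * (1 / x) ^ δ := mul_le_mul_of_nonneg_left h7 (by positivity)
    _ = x ^ s := by
        rw [one_div, Real.inv_rpow h0.le, ← Real.rpow_neg h0.le, ← Real.rpow_add h0]
        congr 1
        rw [hδ]
        ring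

theorem nul (E : Set ℂ) (h : dimH E < 7/4) : Measure.mkMetric gm E = 0 := by
  obtain ⟨s, hs1, hs2⟩ := ENNReal.lt_iff_exists_nnreal_btwn.1 h
  have hs3 : (s : ℝ) < 7/4 := by
    have h1 : ((s : ℝ≥0) : ℝ≥0∞).toReal < (7/4 : ℝ≥0∞).toReal := by
      refine (ENNReal.toReal_lt_toReal ENNReal.coe_ne_top ?_).2 hs2
      exact ENNReal.div_ne_top (by norm_num) (by norm_num)
    simpa using h1
  obtain ⟨r0, hr0, hr⟩ := ga_small hs3
  have h1 : gm ≤ᶠ[𝓝 0] fun r : ℝ≥0∞ => r ^ (s : ℝ) := by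
    have h2 : ∀ᶠ r : ℝ≥0∞ in 𝓝 0, r < ENNReal.ofReal r0 :=
      Iio_mem_nhds (ENNReal.ofReal_pos.mpr hr0)
    filter_upwards [h2] with r hr1
    have hfin : r ≠ ⊤ := (hr1.trans_le le_top).ne
    have h3 : r.toReal < r0 := by
      have := (ENNReal.toReal_lt_toReal hfin ENNReal.ofReal_ne_top).2 hr1
      rwa [ENNReal.toReal_ofReal hr0.le] at this
    have h4 := hr r.toReal ENNReal.toReal_nonneg h3
    show ENNReal.ofReal (ga r.toReal) ≤ r ^ (s : ℝ)
    refine (ENNReal.ofReal_le_ofReal h4).trans (le_of_eq ?_)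
    rw [← ENNReal.ofReal_rpow_of_nonneg (x := r.toReal) (p := (s : ℝ)) ENNReal.toReal_nonneg
      s.coe_nonneg, ENNReal.ofReal_toReal hfin]
  have h2 : (Measure.mkMetric gm : Measure ℂ) ≤ Measure.hausdorffMeasure (s : ℝ) :=
    Measure.mkMetric_mono h1
  have h3 : Measure.hausdorffMeasure (s : ℝ) E = 0 := hausdorffMeasure_of_dimH_lt hs1
  exact le_antisymm ((h2 E).trans h3.le) bot_le

lemma line_re (c : ℝ) : dimH {z : ℂ | z.re = c} ≤ 1 := by
  have h1 : LipschitzWith 1 (fun t : ℝ => (⟨c, t⟩ : ℂ)) := by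
    refine LipschitzWith.of_dist_le_mul fun x y => ?_
    rw [NNReal.coe_one, one_mul, Complex.dist_mk, Real.dist_eq]
    simp [Real.sqrt_sq_eq_abs]
  have h2 : {z : ℂ | z.re = c} ⊆ Set.range (fun t : ℝ => (⟨c, t⟩ : ℂ)) := by
    intro z hz
    exact ⟨z.im, Complex.ext hz.symm rfl⟩
  refine (dimH_mono h2).trans (h1.dimH_range_le.trans ?_)
  rw [Real.dimH_univ]

lemma line_im (c : ℝ) : dimH {z : ℂ | z.im = c} ≤ 1 := by
  have h1 : LipschitzWith 1 (fun t : ℝ => (⟨t, c⟩ : ℂ)) := by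
    refine LipschitzWith.of_dist_le_mul fun x y => ?_
    rw [NNReal.coe_one, one_mul, Complex.dist_mk, Real.dist_eq]
    simp [Real.sqrt_sq_eq_abs]
  have h2 : {z : ℂ | z.im = c} ⊆ Set.range (fun t : ℝ => (⟨t, c⟩ : ℂ)) := by
    intro z hz
    exact ⟨z.re, Complex.ext rfl hz.symm⟩
  refine (dimH_mono h2).trans (h1.dimH_range_le.trans ?_)
  rw [Real.dimH_univ]

theorem bdim : dimH (closure sq \ sq) ≤ 1 := by
  have hcl : closure sq ⊆ {z : ℂ | (0 ≤ z.re ∧ z.re ≤ 1) ∧ 0 ≤ z.im ∧ z.im ≤ 1} := by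
    refine closure_minimal ?_ ?_
    · rintro z ⟨h1, h2, h3, h4⟩
      exact ⟨⟨h1.le, h2.le⟩, h3.le, h4.le⟩
    · exact ((isClosed_le continuous_const Complex.continuous_re).inter
        (isClosed_le Complex.continuous_re continuous_const)).inter
        ((isClosed_le continuous_const Complex.continuous_im).inter
        (isClosed_le Complex.continuous_im continuous_const))
  have hsub : closure sq \ sq ⊆ ({z : ℂ | z.re = 0} ∪ {z : ℂ | z.re = 1}) ∪
      ({z : ℂ | z.im = 0} ∪ {z : ℂ | z.im = 1}) := by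
    rintro z ⟨h1, h2⟩
    obtain ⟨⟨a1, a2⟩, a3, a4⟩ := hcl h1
    by_contra hcon
    simp only [Set.mem_union, not_or] at hcon
    obtain ⟨⟨b1, b2⟩, b3, b4⟩ := hcon
    exact h2 ⟨lt_of_le_of_ne a1 (Ne.symm b1), lt_of_le_of_ne a2 b2,
      lt_of_le_of_ne a3 (Ne.symm b3), lt_of_le_of_ne a4 b4⟩
  refine (dimH_mono hsub).trans ?_
  rw [dimH_union, dimH_union, dimH_union]
  exact max_le (max_le (line_re 0) (line_re 1)) (max_le (line_im 0) (line_im 1))

theorem bd : Measure.mkMetric gm (closure sq \ sq) = 0 := by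
  refine nul _ (lt_of_le_of_lt bdim ?_)
  rw [ENNReal.lt_div_iff_mul_lt (by norm_num) (by norm_num)]
  norm_num

end Pool.Agent.Y686.LGP
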